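import Pool.Agent.H84.LSB.TargetsHL
import Pool.Agent.H1.B2.WWE

/-!
Elementary facts on the weights of thickened planks (MP_ee74d2_an), row OWA.
-/

set_option autoImplicit false

namespace Pool.Agent.H1.HLM

open MeasureTheory Set Pool.Agent.H83.G Pool.Agent.H88.B2 Pool.Agent.H84.LSB
open Pool.Agent.H82.FP (Tu)
open scoped ENNReal NNReal RealInnerProductSpace

theorem pf_OWA : T_OWA := by
  intro m N R δ W hR hδ
  have hR0 : 0 < R := by linarith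
  have hRδ : 0 < R ^ δ := Real.rpow_pos_of_pos hR0 δ
  obtain ⟨h1, h2, h3, h4, h5⟩ := Pool.Agent.H1.B2.WWE.pf_WWE m N R δ W hR0
  refine ⟨fun w _ => h3 w, h1, h2, h4, h5, ?_⟩
  intro w z hw hz
  have hpow : R ^ (-(δ * N)) = ((R ^ δ) ^ N)⁻¹ := by
    rw [Real.rpow_neg hR0.le, Real.rpow_mul hR0.le, Real.rpow_natCast]
  rw [hpow]
  unfold ww
  set x := fc R δ W.1 z - zc W.2 with hx
  have e1 : ((1 + |(R ^ δ / w) * x.1|) ^ N)⁻¹ ≤ 1 :=
    inv_le_one_of_one_le₀ (one_le_pow₀ (by linarith [abs_nonneg ((R ^ δ / w) * x.1)]))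
  have e2 : ((1 + ‖x.2‖) ^ N)⁻¹ ≤ 1 :=
    inv_le_one_of_one_le₀ (one_le_pow₀ (by linarith [norm_nonneg x.2]))
  rcases hz with hz | hz
  · have e3 : ((1 + |(R ^ δ / w) * x.1|) ^ N)⁻¹ ≤ ((R ^ δ) ^ N)⁻¹ := by
      apply inv_anti₀ (by positivity)
      apply pow_le_pow_left₀ hRδ.le
      rw [abs_mul, abs_of_pos (div_pos hRδ hw)]
      have e4 : R ^ δ / w * w ≤ R ^ δ / w * |x.1| :=
        mul_le_mul_of_nonneg_left hz.le (div_pos hRδ hw).le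
      rw [div_mul_cancel₀ _ hw.ne'] at e4
      linarith
    calc ((1 + |(R ^ δ / w) * x.1|) ^ N)⁻¹ * ((1 + ‖x.2‖) ^ N)⁻¹ ≤ ((R ^ δ) ^ N)⁻¹ * 1 :=
          mul_le_mul e3 e2 (by positivity) (by positivity)
      _ = _ := mul_one _
  · have e3 : ((1 + ‖x.2‖) ^ N)⁻¹ ≤ ((R ^ δ) ^ N)⁻¹ := by
      apply inv_anti₀ (by positivity)
      apply pow_le_pow_left₀ hRδ.le
      linarith
    calc ((1 + |(R ^ δ / w) * x.1|) ^ N)⁻¹ * ((1 + ‖x.2‖) ^ N)⁻¹ ≤ 1 * ((R ^ δ) ^ N)⁻¹ :=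
          mul_le_mul e1 e3 (by positivity) (by positivity)
      _ = _ := one_mul _

end Pool.Agent.H1.HLM
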